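import Pool.Agent.FS.McOmega.Fin

/-! Bounded right Engel elements and the `ω`-centre under the minimal condition on centralizers. -/

set_option autoImplicit false

namespace Pool.Agent.FS.McOmega.Variants.OmegaCentre

universe u

/-- the left-normed commutator `[a, _k x]`, where `[a, x] = a⁻¹ a^x` and `a^x = x⁻¹ a x` -/
def comm {G : Type u} [Group G] (a x : G) : ℕ → G
  | 0 => a
  | k + 1 => (comm a x k)⁻¹ * (x⁻¹ * comm a x k * x)

/-- the right `n`-Engel elements -/
def R (G : Type u) [Group G] (n : ℕ) : Set G := {a | ∀ x : G, comm a x n = 1}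

/-- the bounded right Engel elements -/
def Rbar (G : Type u) [Group G] : Set G := ⋃ n : ℕ, R G n

/-- the union of the finite terms of the upper central series -/
def zetaOmega (G : Type u) [Group G] : Set G := ⋃ n : ℕ, (Subgroup.upperCentralSeries G n : Set G)

/-- the minimal condition on centralizers -/
def IsMc (G : Type u) [Group G] : Prop :=
  ∀ X : Set G, ∃ X₀ : Set G, X₀.Finite ∧ X₀ ⊆ X ∧
    Subgroup.centralizer X = Subgroup.centralizer X₀

theorem comm_eq {G : Type u} [Group G] (a x : G) (k : ℕ) :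
    comm a x k = (Pool.Agent.Lib.MP_3f2ebd_al.ad x)^[k] a := by
  induction k with
  | zero => rfl
  | succ k ih => rw [Function.iterate_succ_apply', ← ih]; rfl

theorem isMc_iff (G : Type u) [Group G] : IsMc G ↔ Pool.Agent.Lib.MP_3f2ebd_al.Mc G := by
  refine forall_congr' fun X => ⟨?_, ?_⟩
  · rintro ⟨X₀, h1, h2, h3⟩
    exact ⟨h1.toFinset, by simpa using h2, by simpa using h3⟩
  · rintro ⟨X₀, h2, h3⟩
    exact ⟨X₀, X₀.finite_toSet, h2, h3⟩

theorem result (G : Type u) [Group G] (hG : IsMc G)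
    (hL : ∀ H : Subgroup G, H.FG → ∃ S : Subgroup H, S.FiniteIndex ∧ Group.IsSolvable S) :
    Rbar G = zetaOmega G := by
  refine Set.Subset.antisymm (fun a ha => ?_) (fun a ha => ?_)
  · obtain ⟨m, hm⟩ := Set.mem_iUnion.1 ha
    exact Set.mem_iUnion.2 (Pool.Agent.FS.McOmega.omega ((isMc_iff G).1 hG)
      (fun F => hL _ ⟨F, rfl⟩) a (m := m) fun x => (comm_eq a x m).symm.trans (hm x))
  · obtain ⟨n, hn⟩ := Set.mem_iUnion.1 ha
    refine Set.mem_iUnion.2 ⟨n, fun x => (comm_eq a x n).trans ?_⟩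
    exact Pool.Agent.FS.McOmega.iterate_of_zm (Subgroup.mem_top x) n a
      ((Pool.Agent.FS.McOmega.zm_top (G := G) n).symm ▸ hn)

end Pool.Agent.FS.McOmega.Variants.OmegaCentre
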